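import Pool.Agent.Lib.MP_53e617_al.Mg.G002

set_option autoImplicit false
namespace Pool.Agent.SC

private theorem F2_zip_fst (a b : List ℤ) (h : a.length = b.length) :
    (a.zip b).map Prod.fst = a := List.map_fst_zip (le_of_eq h)

private theorem F2_zip_snd (a b : List ℤ) (h : a.length = b.length) :
    (a.zip b).map Prod.snd = b := List.map_snd_zip (ge_of_eq h)

/-- the list `D`. Proof. Scale `Q` and `c` by `k` (`Q' = k Q`, `c' = c.map (k * ·)`, `G' = G.map (map (k * ·))`) so that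
`∑ y = e Q' - ∑ c' = k (e Q - ∑ c) ≥ k` (`e ≥ 1`, `∑ c < Q`). The `y`-list is `replicate e Q' ++ (c'.toList.map (-·))`, of
length `k = e + l`; the `x`-list is `(-(∑ y - (k-1))) :: replicate (k-1) (-1)`: all negative, sum `-∑ y`.
`D` is the zip. All `y ≠ 0`; the positive ones are `Q'`; `∑ max (-y) 0 = ∑ c' = ρ Q'`. -/
theorem exists_D (ρ : ℚ) (l e : ℕ) (h1 : ρ < 1) (he : 1 ≤ e) (hR : Rep ρ l) :
    ∃ (D : List (ℤ × ℤ)) (Q : ℕ) (c : Multiset ℕ) (N : ℕ) (G : Multiset (Multiset ℕ)),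
      D.length = e + l ∧ 0 < Q ∧ 0 < N ∧ c.sum < Q ∧ (c.sum : ℚ) = ρ * Q ∧ G.sum = N • c ∧
      (∀ g ∈ G, g.sum = Q ∧ Even (Multiset.card g)) ∧
      ((D.map Prod.snd : List ℤ) : Multiset ℤ) =
        Multiset.replicate e (Q : ℤ) + c.map (fun x => -(x : ℤ)) ∧
      (D.map Prod.fst).sum = -(D.map Prod.snd).sum ∧
      (∀ d ∈ D, d.1 < 0) ∧ (∀ d ∈ D, d.2 ≠ 0) ∧ (∀ d ∈ D, 0 < d.2 → d.2 = Q) ∧
      (D.map (fun d => max (-d.2) 0)).sum = (c.sum : ℤ) := by
  obtain ⟨Q, c, N, G, hQ, hN, hc, hcl, hcs, hG, hg⟩ := hR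
  have hcQ : c.sum < Q := by
    have h2 : (c.sum : ℚ) < Q := by
      rw [hcs]
      have hQ' : (0 : ℚ) < Q := by exact_mod_cast hQ
      calc ρ * Q < 1 * Q := by exact mul_lt_mul_of_pos_right h1 hQ'
        _ = Q := one_mul _
    exact_mod_cast h2
  obtain ⟨k, hk⟩ : ∃ k, k = e + l := ⟨_, rfl⟩
  have hk1 : 1 ≤ k := by omega
  set c' : Multiset ℕ := c.map (fun x => k * x) with hc'
  have hc's : c'.sum = k * c.sum := by rw [hc', Multiset.sum_map_mul_left, Multiset.map_id']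
  have hc'pos : ∀ x ∈ c', 0 < x := by
    intro x hx
    rw [hc', Multiset.mem_map] at hx
    obtain ⟨a, ha, rfl⟩ := hx
    exact Nat.mul_pos (by omega) (hc a ha)
  set yl : List ℤ := List.replicate e ((k * Q : ℕ) : ℤ) ++ (c'.toList.map (fun x : ℕ => -(x : ℤ)))
    with hyl
  have hlen : yl.length = k := by
    rw [hyl, List.length_append, List.length_replicate, List.length_map, Multiset.length_toList,
      hc', Multiset.card_map, hcl, hk]
  have hsum : yl.sum = e * ((k * Q : ℕ) : ℤ) - (c'.sum : ℤ) := by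
    rw [hyl, List.sum_append, List.sum_replicate, nsmul_eq_mul]
    have h3 : (c'.toList.map (fun x : ℕ => -(x : ℤ))).sum = -(c'.sum : ℤ) := by
      have h4 : ((c'.map (fun x : ℕ => -(x : ℤ)))).sum = -(c'.sum : ℤ) := by
        rw [Multiset.sum_map_neg]
        congr 1
        exact (Nat.cast_multiset_sum c').symm
      rw [← h4]
      conv_rhs => rw [← Multiset.coe_toList c', Multiset.map_coe, Multiset.sum_coe]
    rw [h3]
    ring
  have hsumk : (k : ℤ) ≤ yl.sum := by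
    rw [hsum, hc's]
    have h5 : (c.sum : ℤ) + 1 ≤ Q := by exact_mod_cast hcQ
    have h6 : (1 : ℤ) ≤ e := by exact_mod_cast he
    have h7 : (0 : ℤ) ≤ (k : ℤ) := by positivity
    have h8 : (1 : ℤ) ≤ e * Q - c.sum := by nlinarith
    have h8' : (e : ℤ) * ((k * Q : ℕ) : ℤ) - ((k * c.sum : ℕ) : ℤ) = k * (e * Q - c.sum) := by
      rw [Nat.cast_mul, Nat.cast_mul]; ring
    rw [h8']
    nlinarith
  set xl : List ℤ := (-(yl.sum - ((k : ℤ) - 1))) :: List.replicate (k - 1) (-1) with hxl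
  have hxlen : xl.length = yl.length := by
    rw [hxl, List.length_cons, List.length_replicate, hlen]; omega
  have hxsum : xl.sum = -yl.sum := by
    rw [hxl, List.sum_cons, List.sum_replicate, nsmul_eq_mul, Nat.cast_sub hk1]
    push_cast
    ring
  have hfst := F2_zip_fst xl yl hxlen
  have hsnd := F2_zip_snd xl yl hxlen
  have hmem1 : ∀ d ∈ xl.zip yl, d.1 ∈ xl := fun d hd => by
    have h2 : d.1 ∈ (xl.zip yl).map Prod.fst := List.mem_map_of_mem hd
    rwa [hfst] at h2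
  have hmem2 : ∀ d ∈ xl.zip yl, d.2 ∈ yl := fun d hd => by
    have h2 : d.2 ∈ (xl.zip yl).map Prod.snd := List.mem_map_of_mem hd
    rwa [hsnd] at h2
  have hy : ∀ y ∈ yl, (y = ((k * Q : ℕ) : ℤ)) ∨ ∃ x ∈ c', y = -(x : ℤ) := by
    intro y hy
    rw [hyl, List.mem_append] at hy
    rcases hy with hy | hy
    · exact Or.inl (List.eq_of_mem_replicate hy)
    · rw [List.mem_map] at hy
      obtain ⟨x, hx, rfl⟩ := hy
      exact Or.inr ⟨x, Multiset.mem_toList.1 hx, rfl⟩
  have hkQ : 0 < k * Q := Nat.mul_pos (by omega) hQ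
  refine ⟨xl.zip yl, k * Q, c', N, G.map (fun g => g.map (fun x => k * x)), ?_, hkQ, hN, ?_, ?_,
    ?_, ?_, ?_, ?_, ?_, ?_, ?_, ?_⟩
  · rw [List.length_zip, hxlen, min_self, hlen, hk]
  · rw [hc's]
    exact Nat.mul_lt_mul_of_pos_left hcQ (by omega)
  · rw [hc's, Nat.cast_mul, Nat.cast_mul, hcs]
    ring
  · have h9 : (G.map (fun g => g.map (fun x => k * x))).sum = G.sum.map (fun x => k * x) := by
      exact (map_multiset_sum (Multiset.mapAddMonoidHom (fun x : ℕ => k * x)) G).symm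
    rw [h9, hG, Multiset.map_nsmul]
  · intro g hg'
    rw [Multiset.mem_map] at hg'
    obtain ⟨g0, hg0, rfl⟩ := hg'
    refine ⟨?_, ?_⟩
    · rw [Multiset.sum_map_mul_left, Multiset.map_id', (hg g0 hg0).1]
    · rw [Multiset.card_map]; exact (hg g0 hg0).2
  · rw [hsnd, hyl, ← Multiset.coe_add, Multiset.coe_replicate, ← Multiset.map_coe,
      Multiset.coe_toList]
    congr 1
    have h16 : (c' >>= fun a : ℕ => (pure (a : ℤ) : Multiset ℤ)) = c'.map (fun a : ℕ => (a : ℤ)) := by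
      change c'.bind (fun a : ℕ => {(a : ℤ)}) = _
      exact Multiset.bind_singleton c' (fun a : ℕ => (a : ℤ))
    change _ = Multiset.map (fun x => -x) (c' >>= fun a : ℕ => (pure (a : ℤ) : Multiset ℤ))
    rw [h16]
    exact (Multiset.map_map (fun x : ℤ => -x) (fun a : ℕ => (a : ℤ)) c').symm
  · rw [hfst, hsnd, hxsum]
  · intro d hd
    have h10 := hmem1 d hd
    rw [hxl, List.mem_cons] at h10
    rcases h10 with h10 | h10
    · rw [h10]
      have : (1 : ℤ) ≤ k := by exact_mod_cast hk1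
      linarith
    · rw [List.eq_of_mem_replicate h10]; norm_num
  · intro d hd
    rcases hy d.2 (hmem2 d hd) with h11 | ⟨x, hx, h11⟩
    · rw [h11]
      have : (0 : ℤ) < ((k * Q : ℕ) : ℤ) := by exact_mod_cast hkQ
      exact this.ne'
    · rw [h11]
      have := hc'pos x hx
      omega
  · intro d hd hpos
    rcases hy d.2 (hmem2 d hd) with h11 | ⟨x, hx, h11⟩
    · exact h11
    · rw [h11] at hpos
      have := hc'pos x hx
      omega
  · have h12 : (xl.zip yl).map (fun d => max (-d.2) 0) = yl.map (fun y => max (-y) 0) := by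
      conv_rhs => rw [← hsnd]
      rw [List.map_map]
      rfl
    rw [h12, hyl, List.map_append, List.sum_append, List.map_replicate, List.map_map]
    have h13 : max (-(((k * Q : ℕ) : ℤ))) 0 = 0 := by
      apply max_eq_right
      have : (0 : ℤ) ≤ ((k * Q : ℕ) : ℤ) := by positivity
      linarith
    rw [h13, List.sum_replicate, smul_zero, zero_add]
    have h14 : ((fun y : ℤ => max (-y) 0) ∘ fun x : ℕ => -(x : ℤ)) = fun x : ℕ => (x : ℤ) := by
      funext x
      simp only [Function.comp_apply, neg_neg]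
      exact max_eq_left (by positivity)
    rw [h14]
    have h15 : (c'.map (fun x : ℕ => (x : ℤ))).sum = (c'.sum : ℤ) := (Nat.cast_multiset_sum c').symm
    rw [← h15]
    conv_rhs => rw [← Multiset.coe_toList c', Multiset.map_coe, Multiset.sum_coe]

/-- Proof. Lower: if `PC g (w^n)` then `2 g ≥ n (k - ρ)`. Upper: for `n = N r + s`, `s < N`:
`w^n = w^(N r) * w^s` and `PC m1 (w^s)` for some `m1 ≤ M` (`M` the maximum over `s < N`, or `s * m0` with `PC m0 w`), so
the infimum is at most `(N r (k-ρ) + 2)/2 + M ≤ n (k-ρ)/2 + 1 + M`. So `|cl(w^n)/n - (k-ρ)/2| ≤ (1 + M)/n → 0`.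
(For real numbers: squeeze.) The set is nonempty, so `sInf` is attained (`Nat.sInf_mem`). -/
theorem tendsto_of_bounds {G : Type*} [Group G] (w : G) (v : ℝ) (N M : ℕ) (hN : 0 < N)
    (hlow : ∀ (n g : ℕ), PC g (w ^ n) → v * n ≤ g)
    (hup : ∀ r : ℕ, ∃ m : ℕ, PC m (w ^ (N * r)) ∧ (m : ℝ) ≤ v * (N * r) + M)
    (m0 : ℕ) (h0 : PC m0 w) (hv : 0 ≤ v) :
    Filter.Tendsto (fun n : ℕ => ((sInf {k : ℕ | PC k (w ^ n)} : ℕ) : ℝ) / (n : ℝ)) Filter.atTop
      (nhds v) := by
  have hpow : ∀ s : ℕ, PC (s * m0) (w ^ s) := by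
    intro s
    induction s with
    | zero => simpa using (PC_zero (G := G))
    | succ s ih =>
      rw [pow_succ, Nat.succ_mul]
      exact PC_mul ih h0
  have hub : ∀ n : ℕ, ∃ m : ℕ, PC m (w ^ n) ∧ (m : ℝ) ≤ v * n + (M + N * m0) := by
    intro n
    obtain ⟨m, hm, hm'⟩ := hup (n / N)
    refine ⟨m + (n % N) * m0, ?_, ?_⟩
    · have h2 : w ^ n = w ^ (N * (n / N)) * w ^ (n % N) := by
        rw [← pow_add, Nat.div_add_mod]
      rw [h2]
      exact PC_mul hm (hpow _)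
    · have h3 : ((N : ℝ) * ((n / N : ℕ) : ℝ)) ≤ n := by
        exact_mod_cast Nat.mul_div_le n N
      have h4 : (((n % N : ℕ) : ℝ)) ≤ N := by
        exact_mod_cast (Nat.mod_lt n hN).le
      have h5 : (0 : ℝ) ≤ m0 := by positivity
      push_cast
      nlinarith [mul_le_mul_of_nonneg_left h3 hv, mul_le_mul_of_nonneg_right h4 h5]
  have hne : ∀ n : ℕ, {k : ℕ | PC k (w ^ n)}.Nonempty := fun n => ⟨_, hpow n⟩
  have hlo : ∀ n : ℕ, v * n ≤ ((sInf {k : ℕ | PC k (w ^ n)} : ℕ) : ℝ) := fun n =>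
    hlow n _ (Nat.sInf_mem (hne n))
  have hhi : ∀ n : ℕ, ((sInf {k : ℕ | PC k (w ^ n)} : ℕ) : ℝ) ≤ v * n + (M + N * m0) := by
    intro n
    obtain ⟨m, hm, hm'⟩ := hub n
    have h6 : ((sInf {k : ℕ | PC k (w ^ n)} : ℕ) : ℝ) ≤ m := by
      exact_mod_cast Nat.sInf_le hm
    exact h6.trans hm'
  have hlim : Filter.Tendsto (fun n : ℕ => v + (M + N * m0 : ℝ) / (n : ℝ)) Filter.atTop (nhds v) := by
    have h7 := (tendsto_const_div_atTop_nhds_zero_nat (M + N * m0 : ℝ)).const_add v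
    rwa [add_zero] at h7
  refine tendsto_of_tendsto_of_tendsto_of_le_of_le' tendsto_const_nhds hlim ?_ ?_
  · filter_upwards [Filter.eventually_gt_atTop 0] with n hn
    have hn' : (0 : ℝ) < n := by exact_mod_cast hn
    rw [le_div_iff₀ hn']
    exact hlo n
  · filter_upwards [Filter.eventually_gt_atTop 0] with n hn
    have hn' : (0 : ℝ) < n := by exact_mod_cast hn
    rw [div_le_iff₀ hn', add_mul, div_mul_cancel₀ _ hn'.ne']
    exact hhi n

end Pool.Agent.SC
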