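import Pool.Agent.Lib.MP_53e617_al.SC.F2

set_option autoImplicit false
namespace Pool.Agent.SC
open Filter

/-- the denominator of `k - 2 q` is at most that of `q` -/
theorem F3_den (k : ℕ) (q : ℚ) : ((k : ℚ) - 2 * q).den ≤ q.den := by
  have e : (k : ℚ) - 2 * q = (k : ℚ) + (((-2 : ℤ) : ℚ)) * q := by push_cast; ring
  rw [e]
  have h1 : ((k : ℚ) + (((-2 : ℤ) : ℚ)) * q).den ∣ (k : ℚ).den * ((((-2 : ℤ) : ℚ)) * q).den :=
    Rat.add_den_dvd _ _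
  have h2 : ((((-2 : ℤ) : ℚ)) * q).den ∣ (((-2 : ℤ) : ℚ)).den * q.den := Rat.mul_den_dvd _ _
  rw [Rat.den_natCast, one_mul] at h1
  rw [Rat.den_intCast, one_mul] at h2
  exact Nat.le_of_dvd q.pos (h1.trans h2)

/-- casting to the reals -/
theorem F3_cast (s k Q : ℕ) (q : ℚ) (h : (s : ℚ) = ((k : ℚ) - 2 * q) * (Q : ℚ)) :
    (s : ℝ) = ((k : ℝ) - 2 * (q : ℝ)) * (Q : ℝ) := by
  have h' := congrArg (fun x : ℚ => (x : ℝ)) h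
  push_cast at h'
  exact h'

/-- the product of the factors is a product of commutators -/
theorem F3_pc (D : List (ℤ × ℤ)) (hx : (D.map Prod.fst).sum = -(D.map Prod.snd).sum) :
    ∃ m : ℕ, PC m (ev (facs D)) := by
  refine ⟨_, H_final ((D.map Prod.snd : List ℤ) : Multiset ℤ) (facs D) ?_ ?_⟩
  · rw [ys_facs]
  · rw [xs_facs, hx, Multiset.sum_coe]

/-- Proof. `k = ⌈2 q⌉` (natural, `≥ j + 7`), `ρ = k - 2 q ∈ [0,1)`, `ρ.den ≤ q.den` (`ρ = k - 2q`; the denominator of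
`2 q` divides that of `q`). `rep_exists` gives `l ≤ j + 6` and `Rep ρ l`; `e = k - l ≥ 1`. `exists_D`, `w = ev (facs D)`.
`lower_pow` gives `2 Q g ≥ n (k Q - ρ Q)`, i.e. `g ≥ n (k-ρ)/2 = n q`. `upper_pow` gives
`2 m Q ≤ N r k Q - r N ρ Q + 2 Q`, i.e. `m ≤ N r q + 1`. `PC m0 w`: `H_final` for the list `facs D`
(`xs.sum = - ys.sum`). Then `tendsto_of_bounds` with `M = 1`. -/
theorem main (j : ℕ) (q : ℚ) (hd : q.den ≤ 2 ^ (2 ^ j)) (hq : ((j : ℚ) + 7) / 2 ≤ q) :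
    ∃ g : FreeGroup (Fin 2), (∃ k : ℕ, PC k g) ∧
      Tendsto (fun n : ℕ => ((sInf {k : ℕ | PC k (g ^ n)} : ℕ) : ℝ) / (n : ℝ)) atTop (nhds (q : ℝ)) := by
  have hq0 : (0 : ℚ) ≤ q := by
    have : (0 : ℚ) ≤ (j : ℚ) := Nat.cast_nonneg j
    linarith
  have h2q : (0 : ℚ) ≤ 2 * q := by linarith
  obtain ⟨k, hk1, hk2⟩ : ∃ k : ℕ, 2 * q ≤ (k : ℚ) ∧ (k : ℚ) < 2 * q + 1 :=
    ⟨⌈2 * q⌉₊, Nat.le_ceil _, Nat.ceil_lt_add_one h2q⟩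
  have hkj : j + 7 ≤ k := by
    have : ((j + 7 : ℕ) : ℚ) ≤ (k : ℚ) := by push_cast; linarith
    exact_mod_cast this
  obtain ⟨l, hl, hR⟩ := rep_exists j ((k : ℚ) - 2 * q) (by linarith) (by linarith)
    ((F3_den k q).trans hd)
  obtain ⟨e, he⟩ : ∃ e, k = e + l := ⟨k - l, by omega⟩
  have he1 : 1 ≤ e := by omega
  obtain ⟨D, Q, c, N, G, hlen, hQ, hN, hcQ, hcr, hG, hG', hD, hx, hx', hy', hyQ, hmax⟩ :=
    exists_D ((k : ℚ) - 2 * q) l e (by linarith) he1 hR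
  have hlenk : D.length = k := by omega
  obtain ⟨m0, hm0⟩ := F3_pc D hx
  have hQr : (0 : ℝ) < (Q : ℝ) := by exact_mod_cast hQ
  have hcR : (c.sum : ℝ) = ((k : ℝ) - 2 * (q : ℝ)) * (Q : ℝ) := F3_cast c.sum k Q q hcr
  refine ⟨ev (facs D), ⟨m0, hm0⟩, ?_⟩
  refine tendsto_of_bounds (ev (facs D)) (q : ℝ) N 1 hN ?_ ?_ m0 hm0 (by exact_mod_cast hq0)
  · intro n g hg
    have h := lower_pow D (Q : ℤ) (by exact_mod_cast hQ) hx' hy' hyQ n hg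
    rw [hmax, hlenk] at h
    have h' : (Q : ℝ) * ((n : ℝ) * (k : ℝ)) ≤ (n : ℝ) * (c.sum : ℝ) + 2 * (Q : ℝ) * (g : ℝ) := by
      exact_mod_cast h
    rw [hcR] at h'
    have h2 : (Q : ℝ) * ((q : ℝ) * n) ≤ (Q : ℝ) * (g : ℝ) := by nlinarith
    exact le_of_mul_le_mul_left h2 hQr
  · intro r
    obtain ⟨m, hm, hle⟩ := upper_pow D Q c N G e hQ hN he1 hcQ hG hG' hD hx r
    refine ⟨m, hm, ?_⟩
    rw [hlenk] at hle
    have h' : 2 * (m : ℝ) * (Q : ℝ) + (r : ℝ) * (N : ℝ) * (c.sum : ℝ) ≤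
        (N : ℝ) * (r : ℝ) * (k : ℝ) * (Q : ℝ) + 2 * (Q : ℝ) := by
      exact_mod_cast hle
    rw [hcR] at h'
    have h2 : (Q : ℝ) * (m : ℝ) ≤ (Q : ℝ) * ((q : ℝ) * ((N : ℝ) * (r : ℝ)) + ((1 : ℕ) : ℝ)) := by
      push_cast
      nlinarith
    exact le_of_mul_le_mul_left h2 hQr

end Pool.Agent.SC
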